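import Pool.Agent.Helper1_QD.Main

/-!
Non-elliptic restricted quasi-diagonals exist over every elliptic curve.

Let `E : y² = x³ + A x + B` be any elliptic curve over `ℂ`, with identity `e` (the point at infinity),
and let `L = 𝒪_E(3e)`, the restriction of `𝒪(1)` of `ℙ²`.  For `t ≠ 0` the curve
`S = {(P, -P, Q, -Q) : x(Q) = x(P) + t} ∪ {(e, e, e, e)}` in `E⁴`
is irreducible and closed, the sum of the coordinates is `e` on `S`, all the coordinates hit `e` only
at `o = (e, e, e, e)`, and the quotient of the squares of the canonical sections of `pᵢ^* L`, `pⱼ^* L`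
vanishing there is a unit at `o`, so that `(pᵢ^* L ⊗ pⱼ^* L⁻¹)^{⊗ 2}` is trivial on `S`.  The curve has
two branches with different tangent directions at `o`.
(The definitions are in `Pool/Agent/Helper1_QD/Defs.lean`.)
-/

set_option autoImplicit false

namespace Pool.Agent.Results.MP_6276a2_ag.SingularRestricted

open Pool.Agent.Helper1_QD

/-- For every elliptic curve `E : y² = x³ + A x + B` over `ℂ` there is a restricted quasi-diagonal
`S ⊂ E⁴` over `(E, 𝒪_E(3e))` which is a singular curve (hence non-elliptic). -/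
theorem result : ∀ A B : ℂ, 4 * A ^ 3 + 27 * B ^ 2 ≠ 0 →
    ∃ S : Set (Fin 4 → Pt A B), IsQuasiDiagonal S ∧ IsRestricted S ∧ ∃ o, IsSingularAt S o := by
  intro A B hΔ
  refine ⟨St A B 1, ⟨St_irred hΔ one_ne_zero, fun i j => ⟨2, two_pos, St_torsion 1 i j⟩⟩,
    St_restricted 1, oo A B, St_singular hΔ 1⟩

end Pool.Agent.Results.MP_6276a2_ag.SingularRestricted
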